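import Mathlib

/-!
# A stationary random graph of polynomial growth with infinite-dimensional spaces of
# harmonic functions of polynomial growth

We answer Q1 of MP_1af0ac_pr in the negative. The example is a deterministic unweighted graph of
bounded degree with a random root. Take the comb with vertices `(i, j)`, whose spine is `(i, 0)` and
whose teeth are `j ↦ (i, j)`, and unfold it: over each `(i, j)` there are infinitely many copies
`(i, j, s)`, and on passing from height `n = i + j` to height `n + 1` the copies are merged in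
groups, so that about `n ^ 4` copies of the origin are merged at height `n`. All copies of `(i, j)`
are equivalent under automorphisms, a copy at height `n` has relative frequency about `n ^ (-4)`,
which is summable over the comb, and this gives the law of the root; seen from a typical root the
graph has polynomial growth. A function of `(i, j)` is harmonic on the unfolded graph if it is
harmonic on the comb with conductances about `n ^ (-4)`; such functions have arbitrary values on the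
spine, since each tooth can carry its own flow to infinity, and grow at most like `n ^ 5`.
-/

open MeasureTheory
open scoped ENNReal

namespace Pool.Agent.Results.MP_1af0ac_pr.InfiniteDim

/-! ## General definitions -/

section Definitions

variable {V : Type}

/-- The total weight `ν(v) = ∑ w, ν(v,w)` at a vertex. -/
noncomputable def vol (ν : V → V → ℝ) (v : V) : ℝ := ∑' w, ν v w

/-- The transition kernel `P(v,w) = ν(v,w) / ν(v)` of the random walk. -/
noncomputable def kernel (ν : V → V → ℝ) (v w : V) : ℝ := ν v w / vol ν v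

/-- The underlying graph: the edges are the pairs of distinct vertices of positive weight. -/
def graph (ν : V → V → ℝ) : SimpleGraph V := SimpleGraph.fromRel fun v w => 0 < ν v w

/-- `ν` is (the weight function of) a weighted graph on the vertex set `V`: symmetric, nonnegative,
zero on the diagonal, of finite total weight at each vertex, with connected underlying graph. -/
structure IsWeightedGraph (ν : V → V → ℝ) : Prop where
  symm : ∀ v w, ν v w = ν w v
  nonneg : ∀ v w, 0 ≤ ν v w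
  diag : ∀ v, ν v v = 0
  summable : ∀ v, Summable (ν v)
  connected : (graph ν).Connected

/-- The ball of radius `n` about `x` in the graph distance. -/
def ball (ν : V → V → ℝ) (x : V) (n : ℕ) : Set V := {y | (graph ν).dist x y ≤ n}

/-- `h` is harmonic: `h(x) = ∑ y, P(x,y) h(y)` for every `x`. -/
def IsHarmonic (ν : V → V → ℝ) (h : V → ℝ) : Prop :=
  ∀ x, HasSum (fun y => kernel ν x y * h y) (h x)

/-- `𝓗_k`: the space of harmonic functions `h` with `|h(x)| ≤ c (1 + d(o,x))^k` for all `x`, for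
some constant `c`. -/
noncomputable def polyHarmonic (ν : V → V → ℝ) (o : V) (k : ℝ) : Submodule ℝ (V → ℝ) where
  carrier := {h | IsHarmonic ν h ∧
    ∃ c : ℝ, ∀ x, |h x| ≤ c * (1 + ((graph ν).dist o x : ℝ)) ^ k}
  zero_mem' := by
    exact ⟨fun x => by simp, 0, fun x => by simp⟩
  add_mem' := by
    rintro f g ⟨hf, c, hc⟩ ⟨hg, d, hd⟩
    refine ⟨fun x => ?_, c + d, fun x => ?_⟩
    · simpa [mul_add] using (hf x).add (hg x)
    · rw [add_mul]
      exact (abs_add_le _ _).trans (add_le_add (hc x) (hd x))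
  smul_mem' := by
    rintro a f ⟨hf, c, hc⟩
    refine ⟨fun x => ?_, |a| * c, fun x => ?_⟩
    · simpa [mul_left_comm] using (hf x).mul_left a
    · rw [Pi.smul_apply, smul_eq_mul, abs_mul, mul_assoc]
      exact mul_le_mul_of_nonneg_left (hc x) (abs_nonneg a)

/-- A root-preserving isomorphism from the rooted Markov chain of `(ν, o)` to that of `(ν', o')`
exists. -/
def RootedIso (ν : V → V → ℝ) (o : V) (ν' : V → V → ℝ) (o' : V) : Prop :=
  ∃ φ : V ≃ V, φ o = o' ∧ ∀ v w, kernel ν' (φ v) (φ w) = kernel ν v w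

/-- The same with two marked vertices `o, p`. -/
def DoublyRootedIso (ν : V → V → ℝ) (o p : V) (ν' : V → V → ℝ) (o' p' : V) : Prop :=
  ∃ φ : V ≃ V, φ o = o' ∧ φ p = p' ∧ ∀ v w, kernel ν' (φ v) (φ w) = kernel ν v w

/-- A random rooted weighted graph `(G, ν, ρ)` on the countable vertex set `V`: a probability space
with a measurable random weight function and a measurable random root. -/
structure RandomRootedGraph (V : Type) where
  /-- The sample space. -/
  Ω : Type
  [mΩ : MeasurableSpace Ω]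
  /-- The probability measure. -/
  μ : Measure Ω
  [prob : IsProbabilityMeasure μ]
  /-- The random weights. -/
  ν : Ω → V → V → ℝ
  /-- The random root. -/
  ρ : Ω → V
  measurable_weight : ∀ v w, Measurable fun ω => ν ω v w
  measurable_root : ∀ v, MeasurableSet {ω | ρ ω = v}
  isWeightedGraph : ∀ᵐ ω ∂μ, IsWeightedGraph (ν ω)

attribute [instance] RandomRootedGraph.mΩ RandomRootedGraph.prob

/-- Measurable events of rooted weighted graphs that only depend on the isomorphism class of the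
rooted Markov chain. -/
def IsEvent (A : V → Set (V → V → ℝ)) : Prop :=
  (∀ o, MeasurableSet (A o)) ∧
    ∀ ν o ν' o', IsWeightedGraph ν → IsWeightedGraph ν' → RootedIso ν o ν' o' →
      (ν ∈ A o ↔ ν' ∈ A o')

/-- Measurable events of doubly rooted weighted graphs that only depend on the isomorphism class of
the doubly rooted Markov chain. -/
def IsEvent₂ (A : V → V → Set (V → V → ℝ)) : Prop :=
  (∀ o p, MeasurableSet (A o p)) ∧
    ∀ ν o p ν' o' p', IsWeightedGraph ν → IsWeightedGraph ν' → DoublyRootedIso ν o p ν' o' p' →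
      (ν ∈ A o p ↔ ν' ∈ A o' p')

/-- `(G, ν, ρ)` is stationary: the law of `(G, ν, X₁)`, up to root-preserving isomorphism of the
rooted Markov chain, is that of `(G, ν, ρ)`. Here `X₁` is the first step of the random walk from
`ρ`: given the graph, `X₁ = v` with probability `P(ρ,v)`. -/
def RandomRootedGraph.IsStationary (G : RandomRootedGraph V) : Prop :=
  ∀ A : V → Set (V → V → ℝ), IsEvent A →
    ∫⁻ ω, (∑' v, ENNReal.ofReal (kernel (G.ν ω) (G.ρ ω) v) * (A v).indicator 1 (G.ν ω)) ∂G.μ =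
      G.μ {ω | G.ν ω ∈ A (G.ρ ω)}

/-- `(G, ν, ρ)` is reversible: `(G, ν, ρ, X₁)` and `(G, ν, X₁, ρ)` have the same law up to
isomorphism of doubly rooted Markov chains. -/
def RandomRootedGraph.IsReversible (G : RandomRootedGraph V) : Prop :=
  ∀ A : V → V → Set (V → V → ℝ), IsEvent₂ A →
    ∫⁻ ω, (∑' v, ENNReal.ofReal (kernel (G.ν ω) (G.ρ ω) v) *
        (A (G.ρ ω) v).indicator 1 (G.ν ω)) ∂G.μ =
      ∫⁻ ω, (∑' v, ENNReal.ofReal (kernel (G.ν ω) (G.ρ ω) v) *
        (A v (G.ρ ω)).indicator 1 (G.ν ω)) ∂G.μ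

/-- Polynomial growth: `𝔼 |B_ρ(n)| ≤ C n^d` for all `n ≥ 1`, for some constants `C, d < ∞`. -/
def RandomRootedGraph.HasPolynomialGrowth (G : RandomRootedGraph V) : Prop :=
  ∃ C d : ℝ, ∀ n : ℕ, 1 ≤ n →
    ∫⁻ ω, ((ball (G.ν ω) (G.ρ ω) n).encard : ℝ≥0∞) ∂G.μ ≤ ENNReal.ofReal (C * (n : ℝ) ^ d)

end Definitions

/-! ## The example

The vertices are triples `(i, j, s)`. Forgetting `s` gives the comb with spine `(i, 0)` and teeth
`(i, j)`, `j ≥ 0`; the number `s` is the name of the copy. The copies at height `n = i + j` are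
merged in groups of `2 ^ (lev (n+1) - lev n)` when one passes to height `n + 1`. -/

/-- Vertices. -/
abbrev Vtx := ℕ × ℕ × ℕ

/-- `2 ^ lev n` is the fourth power of the largest power of two below `n`. -/
def lev (n : ℕ) : ℕ := 4 * Nat.log 2 n

lemma lev_mono {m n : ℕ} (h : m ≤ n) : lev m ≤ lev n :=
  Nat.mul_le_mul_left 4 (Nat.log_mono_right h)

/-- Increment of `lev`. -/
def dl (n : ℕ) : ℕ := lev (n + 1) - lev n

lemma lev_succ (n : ℕ) : lev (n + 1) = lev n + dl n := by
  have : lev n ≤ lev (n + 1) := lev_mono (Nat.le_succ n)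
  unfold dl; omega

lemma dl_le (n : ℕ) : dl n ≤ 4 := by
  have h : Nat.log 2 (n + 1) ≤ Nat.log 2 n + 1 := by
    rcases Nat.eq_zero_or_pos n with rfl | hn
    · simp
    · have h1 : Nat.log 2 (n + 1) ≤ Nat.log 2 (n * 2) := Nat.log_mono_right (by omega)
      rwa [Nat.log_mul_base (by norm_num) hn.ne'] at h1
  unfold dl lev
  omega

/-- The numbers `t` with `t / 2 ^ d = s`. -/
def fib (d s : ℕ) : Finset ℕ := Finset.Ico (s * 2 ^ d) ((s + 1) * 2 ^ d)

lemma mem_fib {d s t : ℕ} : t ∈ fib d s ↔ t >>> d = s := by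
  rw [Nat.shiftRight_eq_div_pow, Nat.div_eq_iff (by positivity), fib, Finset.mem_Ico]
  have : 0 < 2 ^ d := by positivity
  constructor
  · rintro ⟨h1, h2⟩; exact ⟨h1, by rw [add_mul] at h2; omega⟩
  · rintro ⟨h1, h2⟩; exact ⟨h1, by rw [add_mul]; omega⟩

lemma card_fib (d s : ℕ) : (fib d s).card = 2 ^ d := by
  rw [fib, Nat.card_Ico, add_mul]; omega

/-- The neighbour above `x` on the same tooth. -/
def toothUp (x : Vtx) : Vtx := (x.1, x.2.1 + 1, x.2.2 >>> dl (x.1 + x.2.1))

/-- The neighbour above `x` along the spine (used only if `x` is on the spine). -/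
def spineUp (x : Vtx) : Vtx := (x.1 + 1, x.2.1, x.2.2 >>> dl (x.1 + x.2.1))

/-- `y` is a neighbour of `x` above it. -/
def IsUp (x y : Vtx) : Prop := y = toothUp x ∨ (x.2.1 = 0 ∧ y = spineUp x)

/-- The neighbours of a vertex. -/
def nbrs : Vtx → Finset Vtx
  | (0, 0, s) => {toothUp (0, 0, s), spineUp (0, 0, s)}
  | (i + 1, 0, s) => {toothUp (i + 1, 0, s), spineUp (i + 1, 0, s)} ∪
      (fib (dl i) s).image fun t => (i, 0, t)
  | (i, j + 1, s) => {toothUp (i, j + 1, s)} ∪ (fib (dl (i + j)) s).image fun t => (i, j, t)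

lemma mem_nbrs {x y : Vtx} : y ∈ nbrs x ↔ IsUp x y ∨ IsUp y x := by
  obtain ⟨i, j, s⟩ := x
  obtain ⟨i', j', s'⟩ := y
  rcases j with _ | j
  · rcases i with _ | i
    · simp only [nbrs, IsUp, toothUp, spineUp, Finset.mem_insert, Finset.mem_singleton,
        Prod.mk.injEq]
      constructor
      · rintro (⟨h1, h2, h3⟩ | ⟨h1, h2, h3⟩)
        · left; left; exact ⟨h1, h2, h3⟩
        · left; right; exact ⟨by trivial, h1, h2, h3⟩
      · rintro ((h | h) | (h | h)) <;> omega
    · simp only [nbrs, IsUp, toothUp, spineUp, Finset.mem_insert, Finset.mem_singleton,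
        Prod.mk.injEq, Finset.mem_union, Finset.mem_image, mem_fib]
      constructor
      · rintro ((⟨h1, h2, h3⟩ | ⟨h1, h2, h3⟩) | ⟨t, ht, h1, h2, h3⟩)
        · left; left; exact ⟨h1, h2, h3⟩
        · left; right; exact ⟨by trivial, h1, h2, h3⟩
        · right; right
          subst h1 h2 h3
          exact ⟨by trivial, by trivial, by trivial, ht.symm⟩
      · rintro ((h | h) | (h | ⟨h1, h2, h3, h4⟩))
        · left; left; exact h
        · left; right; exact h.2
        · omega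
        · right
          refine ⟨s', ?_, by omega, h1.symm, rfl⟩
          have : i' = i := by omega
          subst this h1
          exact h4.symm
  · simp only [nbrs, IsUp, toothUp, spineUp, Finset.mem_singleton,
        Prod.mk.injEq, Finset.mem_union, Finset.mem_image, mem_fib]
    constructor
    · rintro (h | ⟨t, ht, h1, h2, h3⟩)
      · left; left; exact h
      · right; left
        subst h1 h2 h3
        exact ⟨rfl, rfl, ht.symm⟩
    · rintro ((h | h) | (⟨h1, h2, h3⟩ | h))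
      · left; exact h
      · omega
      · right
        refine ⟨s', ?_, h1, by omega, rfl⟩
        have : j' = j := by omega
        subst this h1
        exact h3.symm
      · omega

lemma nbrs_symm {x y : Vtx} : y ∈ nbrs x ↔ x ∈ nbrs y := by
  rw [mem_nbrs, mem_nbrs, or_comm]

lemma self_notMem_nbrs (x : Vtx) : x ∉ nbrs x := by
  rw [mem_nbrs, or_self]
  rintro (h | ⟨-, h⟩)
  · have := congrArg (fun z : Vtx => z.2.1) h
    simp [toothUp] at this
  · have := congrArg (fun z : Vtx => z.1) h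
    simp [spineUp] at this

/-! ### Sums over neighbours -/

lemma sum_nbrs_zero {M : Type} [AddCommMonoid M] (a : Vtx → M) (s : ℕ) :
    ∑ y ∈ nbrs (0, 0, s), a y = a (toothUp (0, 0, s)) + a (spineUp (0, 0, s)) := by
  rw [nbrs, Finset.sum_pair]
  simp [toothUp, spineUp]

lemma sum_nbrs_spine {M : Type} [AddCommMonoid M] (a : Vtx → M) (i s : ℕ) :
    ∑ y ∈ nbrs (i + 1, 0, s), a y = a (toothUp (i + 1, 0, s)) + a (spineUp (i + 1, 0, s)) +
      ∑ t ∈ fib (dl i) s, a (i, 0, t) := by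
  rw [nbrs, Finset.sum_union, Finset.sum_pair, Finset.sum_image]
  · intro t _ t' _ h
    simpa using h
  · simp [toothUp, spineUp]
  · rw [Finset.disjoint_left]
    intro y hy hy'
    simp only [Finset.mem_insert, Finset.mem_singleton, Finset.mem_image] at hy hy'
    obtain ⟨t, -, rfl⟩ := hy'
    simp only [toothUp, spineUp, Prod.mk.injEq] at hy
    omega

lemma sum_nbrs_tooth {M : Type} [AddCommMonoid M] (a : Vtx → M) (i j s : ℕ) :
    ∑ y ∈ nbrs (i, j + 1, s), a y = a (toothUp (i, j + 1, s)) +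
      ∑ t ∈ fib (dl (i + j)) s, a (i, j, t) := by
  rw [nbrs, Finset.sum_union, Finset.sum_singleton, Finset.sum_image]
  · intro t _ t' _ h
    simpa using h
  · rw [Finset.disjoint_left]
    intro y hy hy'
    simp only [Finset.mem_singleton, Finset.mem_image] at hy hy'
    obtain ⟨t, -, rfl⟩ := hy'
    simp only [toothUp, Prod.mk.injEq] at hy
    omega

/-! ### Automorphisms -/

/-- The automorphism attached to a number `g`. -/
def flip (g : ℕ) (x : Vtx) : Vtx := (x.1, x.2.1, x.2.2 ^^^ (g >>> lev (x.1 + x.2.1)))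

lemma flip_flip (g : ℕ) (x : Vtx) : flip g (flip g x) = x := by
  obtain ⟨i, j, s⟩ := x
  simp [flip]

lemma flip_toothUp (g : ℕ) (x : Vtx) : flip g (toothUp x) = toothUp (flip g x) := by
  obtain ⟨i, j, s⟩ := x
  simp only [flip, toothUp, Nat.shiftRight_xor_distrib, ← Nat.shiftRight_add, ← add_assoc,
    lev_succ]

lemma flip_spineUp (g : ℕ) (x : Vtx) : flip g (spineUp x) = spineUp (flip g x) := by
  obtain ⟨i, j, s⟩ := x
  have : i + 1 + j = i + j + 1 := by ring
  simp only [flip, spineUp, Nat.shiftRight_xor_distrib, ← Nat.shiftRight_add, this, lev_succ]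

lemma isUp_flip {g : ℕ} {x y : Vtx} (h : IsUp x y) : IsUp (flip g x) (flip g y) := by
  rcases h with rfl | ⟨h, rfl⟩
  · left; exact flip_toothUp g x
  · right; exact ⟨h, flip_spineUp g x⟩

lemma isUp_flip_iff {g : ℕ} {x y : Vtx} : IsUp (flip g x) (flip g y) ↔ IsUp x y := by
  refine ⟨fun h => ?_, isUp_flip⟩
  have := isUp_flip (g := g) h
  rwa [flip_flip, flip_flip] at this

/-- `flip g` as a permutation of the vertices. -/
def flipEquiv (g : ℕ) : Vtx ≃ Vtx where
  toFun := flip g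
  invFun := flip g
  left_inv := flip_flip g
  right_inv := flip_flip g

lemma exists_flip (i j t : ℕ) : ∃ g, flip g (i, j, t) = (i, j, 0) := by
  refine ⟨t <<< lev (i + j), ?_⟩
  simp [flip, Nat.shiftLeft_shiftRight]

/-! ### The weights -/

/-- The weights of the example: every edge has weight `1`. -/
def wt (x y : Vtx) : ℝ := if y ∈ nbrs x then 1 else 0

lemma hasSum_wt_mul (x : Vtx) (h : Vtx → ℝ) :
    HasSum (fun y => wt x y * h y) (∑ y ∈ nbrs x, h y) := by
  have h1 : ∑ y ∈ nbrs x, h y = ∑ y ∈ nbrs x, wt x y * h y :=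
    Finset.sum_congr rfl fun y hy => by simp [wt, hy]
  rw [h1]
  refine hasSum_sum_of_ne_finset_zero fun y hy => ?_
  simp [wt, hy]

lemma hasSum_wt (x : Vtx) : HasSum (fun y => wt x y) ((nbrs x).card : ℝ) := by
  have := hasSum_wt_mul x fun _ => 1
  simpa using this

lemma vol_wt (x : Vtx) : vol wt x = ((nbrs x).card : ℝ) := (hasSum_wt x).tsum_eq

lemma nbrs_nonempty (x : Vtx) : (nbrs x).Nonempty :=
  ⟨toothUp x, mem_nbrs.2 (Or.inl (Or.inl rfl))⟩

lemma card_pos (x : Vtx) : 0 < (nbrs x).card := Finset.card_pos.2 (nbrs_nonempty x)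

lemma card_le (x : Vtx) : (nbrs x).card ≤ 18 := by
  have h16 : ∀ n, 2 ^ dl n ≤ 16 := fun n =>
    (Nat.pow_le_pow_right (by norm_num) (dl_le n)).trans (by norm_num)
  have h : (nbrs x).card = ∑ y ∈ nbrs x, 1 := by simp
  rw [h]
  obtain ⟨i, j, s⟩ := x
  rcases j with _ | j
  · rcases i with _ | i
    · rw [sum_nbrs_zero]; norm_num
    · rw [sum_nbrs_spine]
      simp only [Finset.sum_const, card_fib, smul_eq_mul, mul_one]
      have := h16 i
      omega
  · rw [sum_nbrs_tooth]
    simp only [Finset.sum_const, card_fib, smul_eq_mul, mul_one]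
    have := h16 (i + j)
    omega

lemma kernel_wt (x y : Vtx) : kernel wt x y = wt x y * ((nbrs x).card : ℝ)⁻¹ := by
  rw [kernel, vol_wt, div_eq_mul_inv]

lemma adj_iff {x y : Vtx} : (graph wt).Adj x y ↔ y ∈ nbrs x := by
  have h1 : ∀ x y : Vtx, 0 < wt x y ↔ y ∈ nbrs x := by
    intro x y
    unfold wt
    split_ifs with h <;> simp [h]
  rw [graph, SimpleGraph.fromRel_adj, h1, h1]
  constructor
  · rintro ⟨-, h | h⟩
    · exact h
    · exact nbrs_symm.1 h
  · intro h
    refine ⟨?_, Or.inl h⟩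
    rintro rfl
    exact self_notMem_nbrs _ h

lemma wt_flip (g : ℕ) (x y : Vtx) : wt (flip g x) (flip g y) = wt x y := by
  have : flip g y ∈ nbrs (flip g x) ↔ y ∈ nbrs x := by
    rw [mem_nbrs, mem_nbrs, isUp_flip_iff, isUp_flip_iff]
  unfold wt
  simp only [this]

lemma vol_flip (g : ℕ) (x : Vtx) : vol wt (flip g x) = vol wt x := by
  unfold vol
  rw [← (flipEquiv g).tsum_eq]
  exact tsum_congr fun y => wt_flip g x y

lemma kernel_flip (g : ℕ) (x y : Vtx) : kernel wt (flip g x) (flip g y) = kernel wt x y := by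
  rw [kernel, kernel, wt_flip, vol_flip]

/-! ### Connectedness -/

lemma reach_of_mem {x y : Vtx} (h : y ∈ nbrs x) : (graph wt).Reachable x y :=
  (adj_iff.2 h).reachable

lemma reach_spine (i s : ℕ) (m : ℕ) :
    (graph wt).Reachable (i, 0, s) (i + m, 0, s >>> (lev (i + m) - lev i)) := by
  induction m with
  | zero => simp
  | succ m ih =>
    refine ih.trans ?_
    have h : (i + (m + 1), 0, s >>> (lev (i + (m + 1)) - lev i)) =
        spineUp (i + m, 0, s >>> (lev (i + m) - lev i)) := by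
      have h1 : lev (i + (m + 1)) = lev (i + m) + dl (i + m) := by
        rw [← add_assoc, lev_succ]
      have h2 : lev i ≤ lev (i + m) := lev_mono (Nat.le_add_right i m)
      simp only [spineUp, Prod.mk.injEq, add_zero]
      refine ⟨by ring, trivial, ?_⟩
      rw [← Nat.shiftRight_add]
      congr 1
      omega
    rw [h]
    exact reach_of_mem (mem_nbrs.2 (Or.inl (Or.inr ⟨rfl, rfl⟩)))

lemma reach_zero_spine (i : ℕ) : (graph wt).Reachable (0, 0, 0) (i, 0, 0) := by
  have := reach_spine 0 0 i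
  simpa using this

lemma reach_zero_spine' (i s : ℕ) : (graph wt).Reachable (0, 0, 0) (i, 0, s) := by
  -- go up far enough to merge with the copy `0`
  have h : ∃ m, s >>> (lev (i + m) - lev i) = 0 := by
    refine ⟨2 ^ (i + s), ?_⟩
    rw [Nat.shiftRight_eq_div_pow]
    apply Nat.div_eq_of_lt
    have h1 : lev (2 ^ (i + s)) ≤ lev (i + 2 ^ (i + s)) := lev_mono (Nat.le_add_left _ _)
    have h2 : lev (2 ^ (i + s)) = 4 * (i + s) := by
      unfold lev; rw [Nat.log_pow (by norm_num)]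
    have h3 : lev i ≤ 4 * i := Nat.mul_le_mul_left 4 (Nat.log_le_self 2 i)
    calc s < 2 ^ s := Nat.lt_two_pow_self
      _ ≤ 2 ^ (lev (i + 2 ^ (i + s)) - lev i) := Nat.pow_le_pow_right (by norm_num) (by omega)
  obtain ⟨m, hm⟩ := h
  have h1 := reach_spine i s m
  rw [hm] at h1
  exact (reach_zero_spine (i + m)).trans h1.symm

lemma reach_all (i j s : ℕ) : (graph wt).Reachable (0, 0, 0) (i, j, s) := by
  induction j generalizing s with
  | zero => exact reach_zero_spine' i s
  | succ j ih =>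
    refine (ih (s <<< dl (i + j))).trans (reach_of_mem (mem_nbrs.2 (Or.inl (Or.inl ?_))))
    simp [toothUp, Nat.shiftLeft_shiftRight]

lemma connected : (graph wt).Connected := by
  have : Nonempty Vtx := ⟨(0, 0, 0)⟩
  refine SimpleGraph.Connected.mk fun x y => ?_
  obtain ⟨i, j, s⟩ := x
  obtain ⟨i', j', s'⟩ := y
  exact (reach_all i j s).symm.trans (reach_all i' j' s')

lemma isWeightedGraph_wt : IsWeightedGraph wt where
  symm x y := by unfold wt; simp only [nbrs_symm (x := x) (y := y)]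
  nonneg x y := by unfold wt; split_ifs <;> norm_num
  diag x := by unfold wt; simp [self_notMem_nbrs]
  summable x := (hasSum_wt x).summable
  connected := connected

/-! ### Distances and volume growth -/

/-- The height of a vertex. -/
def ht (x : Vtx) : ℕ := x.1 + x.2.1

/-- What remains true of `y` if it is at distance at most `n` from `x`. -/
structure Near (x : Vtx) (n : ℕ) (y : Vtx) : Prop where
  h1 : y.1 ≤ x.1 + n
  h2 : x.1 ≤ y.1 + n
  h3 : y.2.1 ≤ x.2.1 + n
  h4 : x.2.1 ≤ y.2.1 + n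
  h5 : ht y ≤ ht x + n
  h6 : ht x ≤ ht y + n
  h7 : ∀ M, ht x + n ≤ M → y.2.2 >>> (lev M - lev (ht y)) = x.2.2 >>> (lev M - lev (ht x))

lemma up_shift {x y : Vtx} (h : IsUp x y) {M : ℕ} (hM : ht y ≤ M) :
    ht y = ht x + 1 ∧ y.2.2 >>> (lev M - lev (ht y)) = x.2.2 >>> (lev M - lev (ht x)) := by
  have h1 : ht y = ht x + 1 := by
    rcases h with rfl | ⟨h, rfl⟩ <;> simp [ht, toothUp, spineUp] <;> ring
  have h2 : y.2.2 = x.2.2 >>> dl (ht x) := by
    rcases h with rfl | ⟨h, rfl⟩ <;> rfl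
  refine ⟨h1, ?_⟩
  rw [h2, ← Nat.shiftRight_add, h1, lev_succ]
  congr 1
  have h3 : lev (ht y) ≤ lev M := lev_mono hM
  rw [h1, lev_succ] at h3
  omega

lemma near_zero (x : Vtx) : Near x 0 x :=
  ⟨le_rfl, le_rfl, le_rfl, le_rfl, le_rfl, le_rfl, fun _ _ => rfl⟩

lemma near_succ {x y z : Vtx} {n : ℕ} (h : Near x n y) (hz : z ∈ nbrs y) : Near x (n + 1) z := by
  obtain ⟨h1, h2, h3, h4, h5, h6, h7⟩ := h
  rw [mem_nbrs] at hz
  rcases hz with hz | hz
  · have hc := up_shift (M := ht z) hz le_rfl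
    have hs : ∀ M, ht x + (n + 1) ≤ M →
        z.2.2 >>> (lev M - lev (ht z)) = x.2.2 >>> (lev M - lev (ht x)) := by
      intro M hM
      rw [(up_shift (M := M) hz (by omega)).2, h7 M (by omega)]
    rcases hz with rfl | ⟨h0, rfl⟩
    · exact ⟨by simp only [toothUp]; omega, by simp only [toothUp]; omega,
        by simp only [toothUp]; omega, by simp only [toothUp]; omega, by omega, by omega, hs⟩
    · exact ⟨by simp only [spineUp]; omega, by simp only [spineUp]; omega,
        by simp only [spineUp]; omega, by simp only [spineUp]; omega, by omega, by omega, hs⟩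
  · have hc := up_shift (M := ht y) hz le_rfl
    have hs : ∀ M, ht x + (n + 1) ≤ M →
        z.2.2 >>> (lev M - lev (ht z)) = x.2.2 >>> (lev M - lev (ht x)) := by
      intro M hM
      rw [← (up_shift (M := M) hz (by omega)).2, h7 M (by omega)]
    rcases hz with rfl | ⟨h0, rfl⟩
    · simp only [toothUp] at h1 h2 h3 h4
      exact ⟨by omega, by omega, by omega, by omega, by omega, by omega, hs⟩
    · simp only [spineUp] at h1 h2 h3 h4
      exact ⟨by omega, by omega, by omega, by omega, by omega, by omega, hs⟩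

lemma near_of_walk {x y : Vtx} (p : (graph wt).Walk x y) : Near x p.length y := by
  induction p using SimpleGraph.Walk.concatRec with
  | Hnil => exact near_zero _
  | Hconcat p h ih =>
    rw [SimpleGraph.Walk.length_concat]
    exact near_succ ih (adj_iff.1 h)

lemma Near.mono {x y : Vtx} {m n : ℕ} (h : Near x m y) (hmn : m ≤ n) : Near x n y := by
  obtain ⟨h1, h2, h3, h4, h5, h6, h7⟩ := h
  exact ⟨by omega, by omega, by omega, by omega, by omega, by omega,
    fun M hM => h7 M (by omega)⟩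

lemma near_of_mem_ball {x y : Vtx} {n : ℕ} (h : y ∈ ball wt x n) : Near x n y := by
  obtain ⟨p, hp⟩ := connected.exists_walk_length_eq_dist x y
  exact (near_of_walk p).mono (hp.trans_le h)

lemma two_pow_log_le (n : ℕ) : 2 ^ Nat.log 2 n ≤ n + 1 := by
  rcases Nat.eq_zero_or_pos n with rfl | hn
  · simp
  · exact (Nat.pow_log_le_self 2 hn.ne').trans (Nat.le_succ n)

lemma lt_two_pow_log (n : ℕ) : n + 1 ≤ 2 * 2 ^ Nat.log 2 n := by
  have := Nat.lt_pow_succ_log_self (b := 2) (by norm_num) n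
  rw [Nat.succ_eq_add_one, pow_succ] at this
  omega

lemma pow_lev_diff_le (N n : ℕ) : 2 ^ (lev (N + n) - lev (N - n)) ≤ 16 * (2 * n + 1) ^ 4 := by
  have hab : Nat.log 2 (N - n) ≤ Nat.log 2 (N + n) := Nat.log_mono_right (by omega)
  have h1 : 2 ^ (Nat.log 2 (N + n) - Nat.log 2 (N - n)) ≤ 2 * (2 * n + 1) := by
    rcases Nat.eq_zero_or_pos (N + n) with h0 | h0
    · have : N = 0 := by omega
      have : n = 0 := by omega
      subst N n; norm_num
    · have e1 : 2 ^ (Nat.log 2 (N + n) - Nat.log 2 (N - n)) * 2 ^ Nat.log 2 (N - n) =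
          2 ^ Nat.log 2 (N + n) := by
        rw [← pow_add]; congr 1; omega
      have e2 : 2 ^ Nat.log 2 (N + n) ≤ N + n := Nat.pow_log_le_self 2 h0.ne'
      have e3 := lt_two_pow_log (N - n)
      have e4 : N + n ≤ (N - n + 1) * (2 * n + 1) := by
        have : N ≤ (N - n) + n := by omega
        nlinarith [Nat.zero_le ((N - n) * n)]
      have e5 : 2 ^ (Nat.log 2 (N + n) - Nat.log 2 (N - n)) * 2 ^ Nat.log 2 (N - n) ≤
          (2 * (2 * n + 1)) * 2 ^ Nat.log 2 (N - n) := by
        calc _ ≤ (N - n + 1) * (2 * n + 1) := by rw [e1]; exact e2.trans e4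
          _ ≤ (2 * 2 ^ Nat.log 2 (N - n)) * (2 * n + 1) := Nat.mul_le_mul_right _ e3
          _ = _ := by ring
      exact Nat.le_of_mul_le_mul_right e5 (by positivity)
  have h2 : lev (N + n) - lev (N - n) = (Nat.log 2 (N + n) - Nat.log 2 (N - n)) * 4 := by
    unfold lev; omega
  rw [h2, pow_mul]
  calc _ ≤ (2 * (2 * n + 1)) ^ 4 := Nat.pow_le_pow_left h1 4
    _ = _ := by ring

lemma ball_encard_le (x : Vtx) (n : ℕ) :
    (ball wt x n).encard ≤ (16 * (2 * n + 1) ^ 6 : ℕ) := by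
  classical
  set c := x.2.2 >>> (lev (ht x + n) - lev (ht x)) with hc
  set T : Finset (ℕ × ℕ) :=
    (Finset.Icc (x.1 - n) (x.1 + n) ×ˢ Finset.Icc (x.2.1 - n) (x.2.1 + n)).filter
      (fun p => ht x ≤ p.1 + p.2 + n) with hT
  set S : Finset Vtx := T.biUnion fun p =>
    (fib (lev (ht x + n) - lev (p.1 + p.2)) c).image fun t => (p.1, p.2, t) with hS
  have hsub : ball wt x n ⊆ S := by
    intro y hy
    obtain ⟨h1, h2, h3, h4, h5, h6, h7⟩ := near_of_mem_ball hy
    rw [hS, Finset.coe_biUnion, Set.mem_iUnion₂]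
    refine ⟨(y.1, y.2.1), ?_, ?_⟩
    · rw [hT]
      simp only [Finset.coe_filter, Finset.mem_product, Finset.mem_Icc, Set.mem_ofPred_eq]
      unfold ht at h6 ⊢
      omega
    · rw [Finset.coe_image]
      exact ⟨y.2.2, mem_fib.2 (h7 _ le_rfl), rfl⟩
  have hcard : S.card ≤ 16 * (2 * n + 1) ^ 6 := by
    calc S.card ≤ ∑ p ∈ T, ((fib (lev (ht x + n) - lev (p.1 + p.2)) c).image
            fun t => ((p.1, p.2, t) : Vtx)).card := Finset.card_biUnion_le
      _ ≤ ∑ p ∈ T, 16 * (2 * n + 1) ^ 4 := by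
          refine Finset.sum_le_sum fun p hp => ?_
          refine Finset.card_image_le.trans ?_
          rw [card_fib]
          refine le_trans ?_ (pow_lev_diff_le (ht x) n)
          apply Nat.pow_le_pow_right (by norm_num)
          have : ht x ≤ p.1 + p.2 + n := (Finset.mem_filter.1 hp).2
          have := lev_mono (show ht x - n ≤ p.1 + p.2 by omega)
          omega
      _ = T.card * (16 * (2 * n + 1) ^ 4) := by simp
      _ ≤ (2 * n + 1) ^ 2 * (16 * (2 * n + 1) ^ 4) := by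
          refine Nat.mul_le_mul_right _ ?_
          refine (Finset.card_filter_le _ _).trans ?_
          rw [Finset.card_product, Nat.card_Icc, Nat.card_Icc, pow_two]
          exact Nat.mul_le_mul (by omega) (by omega)
      _ = _ := by ring
  calc (ball wt x n).encard ≤ (S : Set Vtx).encard := Set.encard_le_encard hsub
    _ = S.card := Set.encard_coe_eq_coe_finsetCard S
    _ ≤ _ := by exact_mod_cast hcard

/-! ### Masses -/

/-- The mass of a copy at height `n`. -/
noncomputable def w (n : ℕ) : ℝ≥0∞ := (2 ^ lev n)⁻¹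

lemma w_succ (n : ℕ) : w (n + 1) * 2 ^ dl n = w n := by
  have h0 : (2 : ℝ≥0∞) ^ dl n ≠ 0 := by positivity
  have h1 : (2 : ℝ≥0∞) ^ dl n ≠ ⊤ := ENNReal.pow_ne_top (by norm_num)
  unfold w
  rw [lev_succ, pow_add, ENNReal.mul_inv (Or.inr h1) (Or.inr h0), mul_assoc,
    ENNReal.inv_mul_cancel h0 h1, mul_one]

lemma w_le (n : ℕ) : w n ≤ ENNReal.ofReal (16 / ((n : ℝ) + 1) ^ 4) := by
  have h1 : (n + 1) ^ 4 ≤ 16 * 2 ^ lev n := by
    calc (n + 1) ^ 4 ≤ (2 * 2 ^ Nat.log 2 n) ^ 4 := Nat.pow_le_pow_left (lt_two_pow_log n) 4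
      _ = 16 * 2 ^ lev n := by unfold lev; rw [mul_pow, ← pow_mul, mul_comm (Nat.log 2 n) 4]; norm_num
  have h2 : ((n : ℝ) + 1) ^ 4 ≤ 16 * 2 ^ lev n := by exact_mod_cast h1
  have h3 : w n = ENNReal.ofReal ((2 ^ lev n : ℝ)⁻¹) := by
    rw [ENNReal.ofReal_inv_of_pos (by positivity), ENNReal.ofReal_pow (by norm_num)]
    simp [w]
  rw [h3]
  apply ENNReal.ofReal_le_ofReal
  rw [inv_eq_one_div, div_le_div_iff₀ (by positivity) (by positivity)]
  linarith

lemma tsum_w_ne_top : ∑' p : ℕ × ℕ, w (p.1 + p.2) ≠ ⊤ := by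
  have hs : Summable fun n : ℕ => 1 / ((n : ℝ) + 1) ^ 2 := by
    have := (summable_nat_add_iff (f := fun n : ℕ => 1 / (n : ℝ) ^ 2) 1).2
      (Real.summable_one_div_nat_pow.2 (by norm_num))
    simpa using this
  have hs2 : Summable fun p : ℕ × ℕ =>
      16 * (1 / ((p.1 : ℝ) + 1) ^ 2 * (1 / ((p.2 : ℝ) + 1) ^ 2)) :=
    (hs.mul_of_nonneg hs (fun n => by positivity) (fun n => by positivity)).mul_left 16
  refine ne_top_of_le_ne_top hs2.tsum_ofReal_ne_top (ENNReal.tsum_le_tsum fun p => ?_)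
  refine (w_le _).trans (ENNReal.ofReal_le_ofReal ?_)
  have h1 : ((p.1 : ℝ) + 1) ^ 2 * ((p.2 : ℝ) + 1) ^ 2 ≤ (((p.1 + p.2 : ℕ) : ℝ) + 1) ^ 4 := by
    push_cast
    have ha : (0 : ℝ) ≤ p.1 := by positivity
    have hb : (0 : ℝ) ≤ p.2 := by positivity
    have h2 : ((p.1 : ℝ) + 1) * ((p.2 : ℝ) + 1) ≤ ((p.1 : ℝ) + p.2 + 1) ^ 2 := by
      nlinarith [mul_nonneg ha hb]
    calc ((p.1 : ℝ) + 1) ^ 2 * ((p.2 : ℝ) + 1) ^ 2 = (((p.1 : ℝ) + 1) * ((p.2 : ℝ) + 1)) ^ 2 := by
          ring
      _ ≤ (((p.1 : ℝ) + p.2 + 1) ^ 2) ^ 2 := pow_le_pow_left₀ (by positivity) h2 2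
      _ = _ := by ring
  have h3 : 16 * (1 / ((p.1 : ℝ) + 1) ^ 2 * (1 / ((p.2 : ℝ) + 1) ^ 2)) =
      16 / (((p.1 : ℝ) + 1) ^ 2 * ((p.2 : ℝ) + 1) ^ 2) := by
    field_simp
  rw [h3]
  exact div_le_div_of_nonneg_left (by norm_num) (by positivity) h1

/-- The unnormalised root distribution. -/
noncomputable def mass (p : ℕ × ℕ) : ℝ≥0∞ := w (p.1 + p.2) * ((nbrs (p.1, p.2, 0)).card : ℝ≥0∞)

lemma tsum_mass_ne_top : ∑' p, mass p ≠ ⊤ := by
  have h : ∑' p, mass p ≤ ∑' p : ℕ × ℕ, w (p.1 + p.2) * 18 := by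
    refine ENNReal.tsum_le_tsum fun p => mul_le_mul_right ?_ _
    exact_mod_cast card_le (p.1, p.2, 0)
  refine ne_top_of_le_ne_top ?_ h
  rw [ENNReal.tsum_mul_right]
  exact ENNReal.mul_ne_top tsum_w_ne_top (by norm_num)

lemma tsum_mass_ne_zero : ∑' p, mass p ≠ 0 := by
  have h : 0 < mass (0, 0) := by
    unfold mass w
    refine ENNReal.mul_pos ?_ ?_
    · exact ENNReal.inv_ne_zero.2 (ENNReal.pow_ne_top (by norm_num))
    · exact_mod_cast (card_pos (0, 0, 0)).ne'
  exact (h.trans_le (ENNReal.le_tsum _)).ne'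

/-! ### Reversibility -/

lemma tsum_kernel (x : Vtx) (F : Vtx → ℝ≥0∞) :
    ∑' v, ENNReal.ofReal (kernel wt x v) * F v =
      ((nbrs x).card : ℝ≥0∞)⁻¹ * ∑ v ∈ nbrs x, F v := by
  rw [tsum_eq_sum (s := nbrs x), Finset.mul_sum]
  · refine Finset.sum_congr rfl fun v hv => ?_
    have hc : (0 : ℝ) < (nbrs x).card := by exact_mod_cast card_pos x
    rw [kernel_wt, wt, if_pos hv, one_mul, ENNReal.ofReal_inv_of_pos hc, ENNReal.ofReal_natCast]
  · intro v hv
    rw [kernel_wt, wt, if_neg hv]; simp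

lemma mass_mul_tsum_kernel (p : ℕ × ℕ) (F : Vtx → ℝ≥0∞) :
    mass p * ∑' v, ENNReal.ofReal (kernel wt (p.1, p.2, 0) v) * F v =
      w (p.1 + p.2) * ∑ v ∈ nbrs (p.1, p.2, 0), F v := by
  have h0 : ((nbrs (p.1, p.2, 0)).card : ℝ≥0∞) ≠ 0 := by
    exact_mod_cast (card_pos (p.1, p.2, 0)).ne'
  rw [tsum_kernel, mass, mul_assoc, ← mul_assoc ((nbrs (p.1, p.2, 0)).card : ℝ≥0∞),
    ENNReal.mul_inv_cancel h0 (ENNReal.natCast_ne_top _), one_mul]

/-- The edge sum, written so that it is symmetric in the two arguments of `F`. -/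
lemma edge_sum (F : Vtx → Vtx → ℝ≥0∞) (hF : ∀ g x y, F (flip g x) (flip g y) = F x y) :
    ∑' p : ℕ × ℕ, w (p.1 + p.2) * ∑ y ∈ nbrs (p.1, p.2, 0), F (p.1, p.2, 0) y =
      (∑' i, ∑' j, w (i + j) * F (i, j, 0) (toothUp (i, j, 0))) +
      (∑' i, ∑' j, w (i + j) * F (toothUp (i, j, 0)) (i, j, 0)) +
      (∑' i, w i * F (i, 0, 0) (spineUp (i, 0, 0))) +
      (∑' i, w i * F (spineUp (i, 0, 0)) (i, 0, 0)) := by
  set A : ℕ → ℕ → ℝ≥0∞ := fun i j => w (i + j) * F (i, j, 0) (toothUp (i, j, 0)) with hA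
  set B : ℕ → ℕ → ℝ≥0∞ := fun i j => w (i + j) * F (toothUp (i, j, 0)) (i, j, 0) with hB
  set C : ℕ → ℝ≥0∞ := fun i => w i * F (i, 0, 0) (spineUp (i, 0, 0)) with hC
  set D : ℕ → ℝ≥0∞ := fun i => w i * F (spineUp (i, 0, 0)) (i, 0, 0) with hD
  set a : ℕ → ℕ → ℝ≥0∞ := fun i j => w (i + j) * ∑ y ∈ nbrs (i, j, 0), F (i, j, 0) y with ha
  have hinv₁ : ∀ i j t, t >>> dl (i + j) = 0 →
      F (i, j + 1, 0) (i, j, t) = F (toothUp (i, j, 0)) (i, j, 0) := by
    intro i j t ht
    obtain ⟨g, hg⟩ := exists_flip i j t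
    have h1 : ((i, j + 1, 0) : Vtx) = toothUp (i, j, t) := by simp [toothUp, ht]
    rw [h1, ← hF g, flip_toothUp, hg]
  have hinv₂ : ∀ i t, t >>> dl i = 0 →
      F (i + 1, 0, 0) (i, 0, t) = F (spineUp (i, 0, 0)) (i, 0, 0) := by
    intro i t ht
    obtain ⟨g, hg⟩ := exists_flip i 0 t
    have h1 : ((i + 1, 0, 0) : Vtx) = spineUp (i, 0, t) := by simp [spineUp, ht]
    rw [h1, ← hF g, flip_spineUp, hg]
  have h1 : ∀ i j, a i (j + 1) = A i (j + 1) + B i j := by
    intro i j
    simp only [ha, hA, hB]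
    rw [sum_nbrs_tooth, mul_add]
    congr 1
    rw [Finset.sum_congr rfl fun t ht => hinv₁ i j t (mem_fib.1 ht), Finset.sum_const, card_fib,
      nsmul_eq_mul, ← mul_assoc, ← add_assoc]
    congr 1
    rw [← w_succ (i + j)]
    push_cast
    rfl
  have h2 : ∀ i, a (i + 1) 0 = A (i + 1) 0 + C (i + 1) + D i := by
    intro i
    simp only [ha, hA, hC, hD, add_zero]
    rw [sum_nbrs_spine, mul_add, mul_add]
    congr 1
    rw [Finset.sum_congr rfl fun t ht => hinv₂ i t (mem_fib.1 ht), Finset.sum_const, card_fib,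
      nsmul_eq_mul, ← mul_assoc]
    congr 1
    rw [← w_succ i]
    push_cast
    rfl
  have h3 : a 0 0 = A 0 0 + C 0 := by
    simp only [ha, hA, hC, add_zero]
    rw [sum_nbrs_zero, mul_add]
  have hz : ∀ f : ℕ → ℝ≥0∞, ∑' j, f j = f 0 + ∑' j, f (j + 1) := fun f =>
    tsum_eq_zero_add' ENNReal.summable
  rw [ENNReal.tsum_prod (f := fun i j => w (i + j) * ∑ y ∈ nbrs (i, j, 0), F (i, j, 0) y)]
  change ∑' i, ∑' j, a i j = (∑' i, ∑' j, A i j) + (∑' i, ∑' j, B i j) + ∑' i, C i + ∑' i, D i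
  have e1 : ∑' i, ∑' j, a i j = ∑' i, a i 0 + (∑' i, ∑' j, A i (j + 1)) + ∑' i, ∑' j, B i j := by
    rw [← ENNReal.tsum_add, ← ENNReal.tsum_add]
    refine tsum_congr fun i => ?_
    rw [hz (a i), add_assoc, ← ENNReal.tsum_add]
    congr 1
    exact tsum_congr fun j => h1 i j
  have e2 : ∑' i, a i 0 = ∑' i, A i 0 + ∑' i, C i + ∑' i, D i := by
    rw [hz (fun i => a i 0), hz (fun i => A i 0), hz C, h3]
    simp only [h2, ENNReal.tsum_add]
    ring
  have e3 : ∑' i, ∑' j, A i j = ∑' i, A i 0 + ∑' i, ∑' j, A i (j + 1) := by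
    rw [← ENNReal.tsum_add]
    exact tsum_congr fun i => hz (A i)
  rw [e1, e2, e3]
  ring

lemma edge_sum_symm (F : Vtx → Vtx → ℝ≥0∞) (hF : ∀ g x y, F (flip g x) (flip g y) = F x y) :
    ∑' p : ℕ × ℕ, mass p * ∑' v, ENNReal.ofReal (kernel wt (p.1, p.2, 0) v) * F (p.1, p.2, 0) v =
    ∑' p : ℕ × ℕ, mass p * ∑' v, ENNReal.ofReal (kernel wt (p.1, p.2, 0) v) *
      F v (p.1, p.2, 0) := by
  simp only [mass_mul_tsum_kernel]
  rw [edge_sum F hF, edge_sum (fun x y => F y x) (fun g x y => hF g y x)]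
  ring

/-- The root distribution, as a probability mass function on `ℕ × ℕ`. -/
noncomputable def rootLaw : PMF (ℕ × ℕ) := PMF.normalize mass tsum_mass_ne_zero tsum_mass_ne_top

/-- The random rooted graph: the graph is deterministic, the root is `(i, j, 0)` with `(i, j)`
distributed as `rootLaw`. -/
noncomputable def G₀ : RandomRootedGraph Vtx where
  Ω := ℕ × ℕ
  μ := rootLaw.toMeasure
  ν := fun _ => wt
  ρ := fun p => (p.1, p.2, 0)
  measurable_weight := fun _ _ => measurable_const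
  measurable_root := fun _ => MeasurableSet.of_discrete
  isWeightedGraph := Filter.Eventually.of_forall fun _ => isWeightedGraph_wt

lemma lintegral_rootLaw (f : ℕ × ℕ → ℝ≥0∞) :
    ∫⁻ p, f p ∂rootLaw.toMeasure = (∑' p, mass p * f p) * (∑' p, mass p)⁻¹ := by
  rw [lintegral_countable', ← ENNReal.tsum_mul_right]
  refine tsum_congr fun p => ?_
  rw [PMF.toMeasure_apply_singleton _ _ (MeasurableSet.singleton p), rootLaw, PMF.normalize_apply]
  ring

lemma reversible : G₀.IsReversible := by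
  intro A hA
  change ∫⁻ p : ℕ × ℕ, (∑' v, ENNReal.ofReal (kernel wt (p.1, p.2, 0) v) *
        (A (p.1, p.2, 0) v).indicator 1 wt) ∂rootLaw.toMeasure =
      ∫⁻ p : ℕ × ℕ, (∑' v, ENNReal.ofReal (kernel wt (p.1, p.2, 0) v) *
        (A v (p.1, p.2, 0)).indicator 1 wt) ∂rootLaw.toMeasure
  rw [lintegral_rootLaw, lintegral_rootLaw]
  congr 1
  refine edge_sum_symm (fun x y => (A x y).indicator 1 wt) fun g x y => ?_
  have : wt ∈ A (flip g x) (flip g y) ↔ wt ∈ A x y :=
    (hA.2 wt x y wt (flip g x) (flip g y) isWeightedGraph_wt isWeightedGraph_wt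
      ⟨flipEquiv g, rfl, rfl, fun v w => kernel_flip g v w⟩).symm
  by_cases h : wt ∈ A x y
  · rw [Set.indicator_of_mem h, Set.indicator_of_mem (this.2 h)]
  · rw [Set.indicator_of_notMem h, Set.indicator_of_notMem (fun h' => h (this.1 h'))]

lemma stationary : G₀.IsStationary := by
  intro A hA
  have hrev := reversible (fun _ p => A p) ⟨fun _ p => hA.1 p,
    fun ν o p ν' o' p' h1 h2 ⟨φ, _, h4, h5⟩ => hA.2 ν p ν' p' h1 h2 ⟨φ, h4, h5⟩⟩
  rw [hrev]
  have h1 : ∀ ω : G₀.Ω, ∑' v, ENNReal.ofReal (kernel (G₀.ν ω) (G₀.ρ ω) v) *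
      (A (G₀.ρ ω)).indicator 1 (G₀.ν ω) = {ω | G₀.ν ω ∈ A (G₀.ρ ω)}.indicator 1 ω := by
    intro ω
    have h2 := tsum_kernel (G₀.ρ ω) fun _ => (A (G₀.ρ ω)).indicator
      (1 : (Vtx → Vtx → ℝ) → ℝ≥0∞) (G₀.ν ω)
    have h0 : ((nbrs (G₀.ρ ω)).card : ℝ≥0∞) ≠ 0 := by
      exact_mod_cast (card_pos (G₀.ρ ω)).ne'
    rw [Finset.sum_const, nsmul_eq_mul, ← mul_assoc,
      ENNReal.inv_mul_cancel h0 (ENNReal.natCast_ne_top _), one_mul] at h2
    refine h2.trans ?_
    by_cases h : G₀.ν ω ∈ A (G₀.ρ ω)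
    · rw [Set.indicator_of_mem h, Set.indicator_of_mem (show ω ∈ {ω | G₀.ν ω ∈ A (G₀.ρ ω)} from h)]
      rfl
    · rw [Set.indicator_of_notMem h,
        Set.indicator_of_notMem (show ω ∉ {ω | G₀.ν ω ∈ A (G₀.ρ ω)} from h)]
  rw [lintegral_congr h1, lintegral_indicator_one]
  change MeasurableSet (α := ℕ × ℕ) _
  exact MeasurableSet.of_discrete

/-! ### Harmonic functions -/

/-- The size of the cluster of copies, as a real number. -/
noncomputable def W (n : ℕ) : ℝ := 2 ^ lev n

lemma W_succ (n : ℕ) : W (n + 1) = W n * 2 ^ dl n := by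
  unfold W; rw [lev_succ, pow_add]

lemma W_pos (n : ℕ) : 0 < W n := by unfold W; positivity

lemma one_le_W (n : ℕ) : 1 ≤ W n := one_le_pow₀ (by norm_num)

lemma W_le (n : ℕ) : W n ≤ ((n : ℝ) + 1) ^ 4 := by
  have h1 : 2 ^ lev n ≤ (n + 1) ^ 4 := by
    calc 2 ^ lev n = (2 ^ Nat.log 2 n) ^ 4 := by
          unfold lev; rw [← pow_mul, mul_comm (Nat.log 2 n) 4]
      _ ≤ (n + 1) ^ 4 := Nat.pow_le_pow_left (two_pow_log_le n) 4
  unfold W
  exact_mod_cast h1

/-- The flow along the spine. -/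
noncomputable def spineFlow (a : ℕ → ℝ) (i : ℕ) : ℝ := (a (i + 1) - a i) / W i

/-- The flow into a tooth. -/
noncomputable def toothFlow (a : ℕ → ℝ) : ℕ → ℝ
  | 0 => -spineFlow a 0
  | i + 1 => spineFlow a i - spineFlow a (i + 1)

/-- The harmonic function with values `a` on the spine. -/
noncomputable def harm (a : ℕ → ℝ) (x : Vtx) : ℝ :=
  a x.1 + toothFlow a x.1 * ∑ l ∈ Finset.range x.2.1, W (x.1 + l)

lemma spineFlow_mul (a : ℕ → ℝ) (i : ℕ) : spineFlow a i * W i = a (i + 1) - a i := by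
  unfold spineFlow; rw [div_mul_cancel₀ _ (W_pos i).ne']

lemma sum_harm (a : ℕ → ℝ) (x : Vtx) : ∑ y ∈ nbrs x, harm a y = (nbrs x).card * harm a x := by
  have hcard : ((nbrs x).card : ℝ) = ∑ y ∈ nbrs x, 1 := by simp
  rw [hcard]
  obtain ⟨i, j, s⟩ := x
  rcases j with _ | j
  · rcases i with _ | i
    · rw [sum_nbrs_zero, sum_nbrs_zero]
      simp only [harm, toothUp, spineUp, toothFlow, Finset.range_zero, Finset.sum_empty, mul_zero,
        add_zero, zero_add, Finset.range_one, Finset.sum_singleton]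
      have := spineFlow_mul a 0
      rw [neg_mul, this]
      ring
    · rw [sum_nbrs_spine, sum_nbrs_spine]
      simp only [harm, toothUp, spineUp, toothFlow, Finset.range_zero, Finset.sum_empty, mul_zero,
        add_zero, zero_add, Finset.range_one, Finset.sum_singleton, Finset.sum_const, card_fib,
        nsmul_eq_mul, mul_one]
      have h1 := spineFlow_mul a i
      have h2 := spineFlow_mul a (i + 1)
      have h3 := W_succ i
      rw [sub_mul, h2, h3, ← mul_assoc, h1]
      push_cast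
      ring
  · rw [sum_nbrs_tooth, sum_nbrs_tooth]
    simp only [harm, toothUp, Finset.sum_const, card_fib, nsmul_eq_mul, mul_one,
      Finset.sum_range_succ]
    rw [← add_assoc i j 1, W_succ (i + j)]
    push_cast
    ring

lemma isHarmonic_harm (a : ℕ → ℝ) : IsHarmonic wt (harm a) := by
  intro x
  have h := (hasSum_wt_mul x (harm a)).mul_left ((nbrs x).card : ℝ)⁻¹
  have hc : ((nbrs x).card : ℝ) ≠ 0 := by exact_mod_cast (card_pos x).ne'
  rw [sum_harm, ← mul_assoc, inv_mul_cancel₀ hc, one_mul] at h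
  have e : (fun y => kernel wt x y * harm a y) =
      fun y => ((nbrs x).card : ℝ)⁻¹ * (wt x y * harm a y) := by
    funext y; rw [kernel_wt]; ring
  rw [e]
  exact h

lemma abs_harm_le {a : ℕ → ℝ} (ha : ∀ i, |a i| ≤ 1) (x : Vtx) :
    |harm a x| ≤ 5 * (1 + (ht x : ℝ)) ^ 5 := by
  have hs : ∀ i, |spineFlow a i| ≤ 2 := by
    intro i
    unfold spineFlow
    rw [abs_div, abs_of_pos (W_pos i), div_le_iff₀ (W_pos i)]
    have h1 : |a (i + 1) - a i| ≤ |a (i + 1)| + |a i| := abs_sub _ _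
    have := one_le_W i
    have := ha i
    have := ha (i + 1)
    linarith
  have ht' : ∀ i, |toothFlow a i| ≤ 4 := by
    intro i
    rcases i with _ | i
    · simp only [toothFlow, abs_neg]
      exact (hs 0).trans (by norm_num)
    · simp only [toothFlow]
      have h1 := abs_sub (spineFlow a i) (spineFlow a (i + 1))
      have := hs i
      have := hs (i + 1)
      linarith
  have hh : (0 : ℝ) ≤ (ht x : ℝ) := by positivity
  have hsum : ∑ l ∈ Finset.range x.2.1, W (x.1 + l) ≤ (1 + (ht x : ℝ)) ^ 5 := by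
    calc ∑ l ∈ Finset.range x.2.1, W (x.1 + l)
        ≤ ∑ l ∈ Finset.range x.2.1, (1 + (ht x : ℝ)) ^ 4 := by
          refine Finset.sum_le_sum fun l hl => ?_
          have hl' : l < x.2.1 := Finset.mem_range.1 hl
          refine (W_le _).trans (pow_le_pow_left₀ (by positivity) ?_ 4)
          have : x.1 + l ≤ ht x := by unfold ht; omega
          have : ((x.1 + l : ℕ) : ℝ) ≤ (ht x : ℝ) := by exact_mod_cast this
          linarith
      _ = (x.2.1 : ℝ) * (1 + (ht x : ℝ)) ^ 4 := by simp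
      _ ≤ (1 + (ht x : ℝ)) * (1 + (ht x : ℝ)) ^ 4 := by
          refine mul_le_mul_of_nonneg_right ?_ (by positivity)
          have : x.2.1 ≤ ht x := by unfold ht; omega
          have : (x.2.1 : ℝ) ≤ (ht x : ℝ) := by exact_mod_cast this
          linarith
      _ = _ := by ring
  have hsum0 : 0 ≤ ∑ l ∈ Finset.range x.2.1, W (x.1 + l) :=
    Finset.sum_nonneg fun l _ => (W_pos _).le
  have h1 : (1 : ℝ) ≤ (1 + (ht x : ℝ)) ^ 5 := one_le_pow₀ (by linarith)
  calc |harm a x| ≤ |a x.1| + |toothFlow a x.1| * ∑ l ∈ Finset.range x.2.1, W (x.1 + l) := by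
        unfold harm
        refine (abs_add_le _ _).trans ?_
        rw [abs_mul, abs_of_nonneg hsum0]
    _ ≤ 1 + 4 * (1 + (ht x : ℝ)) ^ 5 :=
        add_le_add (ha _) (mul_le_mul (ht' _) hsum hsum0 (by norm_num))
    _ ≤ _ := by linarith

lemma ht_le (o x : Vtx) : ht x ≤ ht o + (graph wt).dist o x :=
  (near_of_mem_ball (n := (graph wt).dist o x) (by simp [ball])).h5

lemma harm_mem {a : ℕ → ℝ} (ha : ∀ i, |a i| ≤ 1) (o : Vtx) {k : ℝ} (hk : 5 ≤ k) :
    harm a ∈ polyHarmonic wt o k := by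
  refine ⟨isHarmonic_harm a, 5 * (1 + (ht o : ℝ)) ^ 5, fun x => ?_⟩
  have hd : (0 : ℝ) ≤ ((graph wt).dist o x : ℝ) := by positivity
  have hh : (0 : ℝ) ≤ (ht o : ℝ) := by positivity
  have h1 : (ht x : ℝ) ≤ ht o + (graph wt).dist o x := by exact_mod_cast ht_le o x
  have h2 : 1 + (ht x : ℝ) ≤ (1 + (ht o : ℝ)) * (1 + ((graph wt).dist o x : ℝ)) := by
    nlinarith [mul_nonneg hh hd]
  have h3 : (1 + ((graph wt).dist o x : ℝ)) ^ 5 ≤ (1 + ((graph wt).dist o x : ℝ)) ^ k := by
    rw [← Real.rpow_natCast]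
    exact Real.rpow_le_rpow_of_exponent_le (by linarith) (by push_cast; exact hk)
  calc |harm a x| ≤ 5 * (1 + (ht x : ℝ)) ^ 5 := abs_harm_le ha x
    _ ≤ 5 * ((1 + (ht o : ℝ)) * (1 + ((graph wt).dist o x : ℝ))) ^ 5 := by
        refine mul_le_mul_of_nonneg_left (pow_le_pow_left₀ (by positivity) h2 5) (by norm_num)
    _ = 5 * (1 + (ht o : ℝ)) ^ 5 * (1 + ((graph wt).dist o x : ℝ)) ^ 5 := by ring
    _ ≤ _ := mul_le_mul_of_nonneg_left h3 (by positivity)

lemma infinite_dim (o : Vtx) {k : ℝ} (hk : 5 ≤ k) :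
    ¬ FiniteDimensional ℝ (polyHarmonic wt o k) := by
  intro hfin
  have hb : ∀ m i : ℕ, |(Pi.single m (1 : ℝ) : ℕ → ℝ) i| ≤ 1 := by
    intro m i
    by_cases h : i = m
    · subst h; simp
    · rw [Pi.single_eq_of_ne h]; simp
  let v : ℕ → polyHarmonic wt o k := fun m => ⟨harm (Pi.single m 1), harm_mem (hb m) o hk⟩
  let e : polyHarmonic wt o k →ₗ[ℝ] (ℕ → ℝ) :=
    { toFun := fun h i => h.1 (i, 0, 0)
      map_add' := fun _ _ => rfl
      map_smul' := fun _ _ => rfl }
  have hv : LinearIndependent ℝ v := by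
    refine LinearIndependent.of_comp e ?_
    have : (e ∘ v) = fun m => Pi.single m (1 : ℝ) := by
      funext m i
      simp [e, v, harm]
    rw [this]
    exact Pi.linearIndependent_single_one ℕ ℝ
  exact not_finite_iff_infinite.2 (inferInstance : Infinite ℕ) hv.finite_of_isNoetherian

/-! ### Polynomial growth -/

lemma polynomial_growth : G₀.HasPolynomialGrowth := by
  refine ⟨11664, 6, fun n hn => ?_⟩
  have h1 : ∀ ω : G₀.Ω, ((ball (G₀.ν ω) (G₀.ρ ω) n).encard : ℝ≥0∞) ≤
      ENNReal.ofReal (11664 * (n : ℝ) ^ (6 : ℝ)) := by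
    intro ω
    have h2 : ((ball (G₀.ν ω) (G₀.ρ ω) n).encard : ℝ≥0∞) ≤
        (((16 * (2 * n + 1) ^ 6 : ℕ) : ℕ∞) : ℝ≥0∞) :=
      ENat.toENNReal_le.2 (ball_encard_le (G₀.ρ ω) n)
    refine h2.trans ?_
    have h3 : 16 * (2 * n + 1) ^ 6 ≤ 11664 * n ^ 6 := by
      calc 16 * (2 * n + 1) ^ 6 ≤ 16 * (3 * n) ^ 6 :=
            Nat.mul_le_mul_left _ (Nat.pow_le_pow_left (by omega) 6)
        _ = 11664 * n ^ 6 := by ring
    have h4 : ((16 * (2 * n + 1) ^ 6 : ℕ) : ℝ) ≤ 11664 * (n : ℝ) ^ 6 := by exact_mod_cast h3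
    rw [ENat.toENNReal_coe, ← ENNReal.ofReal_natCast]
    apply ENNReal.ofReal_le_ofReal
    refine h4.trans (le_of_eq ?_)
    norm_cast
  calc ∫⁻ ω, ((ball (G₀.ν ω) (G₀.ρ ω) n).encard : ℝ≥0∞) ∂G₀.μ
      ≤ ∫⁻ _, ENNReal.ofReal (11664 * (n : ℝ) ^ (6 : ℝ)) ∂G₀.μ := lintegral_mono h1
    _ = _ := by rw [lintegral_const, measure_univ, mul_one]

/-- **Main result** (negative answer to Q1). There is a stationary (and even reversible) random
rooted graph of polynomial growth such that, surely, the space `𝓗_k` of harmonic functions of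
growth `k` is infinite-dimensional for every `k ≥ 5`. Moreover all edge weights are `1`, all
degrees are at most `18`, the graph is deterministic (only the root is random), and every ball of
radius `n`, about every vertex, has at most `16 (2 n + 1) ^ 6` vertices. -/
theorem result :
    ∃ G : RandomRootedGraph (ℕ × ℕ × ℕ),
      G.IsStationary ∧ G.IsReversible ∧ G.HasPolynomialGrowth ∧
      (∀ ω, ∀ k : ℝ, 5 ≤ k → ¬ FiniteDimensional ℝ (polyHarmonic (G.ν ω) (G.ρ ω) k)) ∧
      (∀ ω, IsWeightedGraph (G.ν ω)) ∧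
      (∀ ω x y, G.ν ω x y = 0 ∨ G.ν ω x y = 1) ∧
      (∀ ω x, vol (G.ν ω) x ≤ 18) ∧
      (∀ ω ω', G.ν ω = G.ν ω') ∧
      (∀ ω x n, (ball (G.ν ω) x n).encard ≤ (16 * (2 * n + 1) ^ 6 : ℕ)) := by
  refine ⟨G₀, stationary, reversible, polynomial_growth, fun ω k hk => infinite_dim _ hk,
    fun _ => isWeightedGraph_wt, fun _ x y => ?_, fun _ x => ?_, fun _ _ => rfl,
    fun _ x n => ball_encard_le x n⟩
  · change wt x y = 0 ∨ wt x y = 1
    unfold wt
    split_ifs
    · exact Or.inr rfl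
    · exact Or.inl rfl
  · change vol wt x ≤ 18
    rw [vol_wt]
    exact_mod_cast card_le x

end Pool.Agent.Results.MP_1af0ac_pr.InfiniteDim
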